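import Pool.Agent.Y969.SM.FinD

set_option autoImplicit false

/-!
# Shifted moments of zeta with one doubled shift, for almost all other shifts

The shifted moments of order `2k` of the Riemann zeta function with `α = β = γ`,
`γ = (0, 0, c_1, …, c_n)`, `k = n + 2`: leading asymptotics for all `c` in the cube `[0, T]^n`
outside a set of small measure, and in mean over `c`.
-/

namespace Pool.Agent.Results.MP_fa2474_nt.DoubledShift

open Complex MeasureTheory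

noncomputable section

variable {n k : ℕ}

/-- `Z_{a, b}(t)`. -/
def Z (a b : Fin k → ℝ) (t : ℝ) : ℂ :=
  ∏ j, riemannZeta (1 / 2 + I * (t + a j)) * riemannZeta (1 / 2 - I * (t + b j))

/-- The shifts `(0, 0, c_1, …, c_n)`. -/
def shifts (c : Fin n → ℝ) : Fin (n + 2) → ℝ := Fin.cons 0 (Fin.cons 0 c)

/-- The local density at the prime `p`: the mean over the unit circle of the product of the
normalised local factors at `p`. -/
def localDensity (c : Fin n → ℝ) (p : ℕ) : ℝ :=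
  (1 - 1 / (p : ℝ)) ^ (n + 4) * ∫ θ in (0:ℝ)..1,
    1 / (‖1 - exp (2 * Real.pi * I * θ) * (p : ℂ) ^ (-(1 / 2) : ℂ)‖ ^ 4 *
      ∏ j, ‖1 - exp (2 * Real.pi * I * θ) * (p : ℂ) ^ (-(1 / 2 + I * c j))‖ ^ 2)

/-- The product of the local densities over the primes up to `log T`. -/
def density (T : ℝ) (c : Fin n → ℝ) : ℝ :=
  ∏ p ∈ (Finset.range (⌊Real.log T⌋₊ + 1)).filter Nat.Prime, localDensity c p

/-- The zeta factor of the main term: the product of `|ζ(1 + i(γ_j - γ_l))|` over all ordered pairs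
`(j, l)` with `γ_j`, `γ_l` in different places among `0, c_1, …, c_n`. -/
def zetaFactor (c : Fin n → ℝ) : ℝ :=
  (∏ j, ‖riemannZeta (1 + I * c j)‖ ^ 4) *
    ∏ i, ∏ j ∈ Finset.Ioi i, ‖riemannZeta (1 + I * (c i - c j))‖ ^ 2

/-- The local factor of `A(c)`: the local density over the Euler factor of `zetaFactor c`. -/
def localFactor (c : Fin n → ℝ) (p : ℕ) : ℝ :=
  localDensity c p * ((∏ j, ‖1 - (p : ℂ) ^ (-(1 + I * c j))‖ ^ 4) *
    ∏ i, ∏ j ∈ Finset.Ioi i, ‖1 - (p : ℂ) ^ (-(1 + I * (c i - c j)))‖ ^ 2)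

/-- The arithmetic factor `A(c)`. -/
def arithmeticFactor (c : Fin n → ℝ) : ℝ := ∏' p : Nat.Primes, localFactor c p

lemma pair_eq (t g : ℝ) : riemannZeta (1 / 2 + I * (t + g)) * riemannZeta (1 / 2 - I * (t + g)) =
    ((‖riemannZeta (1 / 2 + I * (t + g))‖ ^ 2 : ℝ) : ℂ) := by
  have e1 : (1 / 2 - I * ((t : ℂ) + (g : ℂ))) = (starRingEnd ℂ) (1 / 2 + I * ((t : ℂ) + (g : ℂ))) := by
    simp only [map_add, map_mul, conj_I, conj_ofReal, map_div₀, map_one, map_ofNat]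
    ring
  rw [e1, riemannZeta_conj, mul_conj, normSq_eq_norm_sq]

lemma Z_eq (c : Fin n → ℝ) (t : ℝ) : Z (shifts c) (shifts c) t =
    ((‖riemannZeta (1 / 2 + I * t)‖ ^ 4 * ∏ j, ‖riemannZeta (1 / 2 + I * (t + c j))‖ ^ 2 : ℝ) : ℂ) := by
  unfold Z
  simp only [pair_eq]
  rw [← ofReal_prod, Fin.prod_univ_succ, Fin.prod_univ_succ]
  have h0 : shifts c 0 = 0 := rfl
  have h1 : shifts c (Fin.succ 0) = 0 := rfl
  have h2 : ∀ j : Fin n, shifts c (Fin.succ (Fin.succ j)) = c j := fun j => rfl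
  simp only [h0, h1, h2, ofReal_zero, add_zero]
  congr 1
  ring

/-- For every `n`, with `γ = (0, 0, c_1, …, c_n)`:
(1) The product defining `A(c)` converges absolutely and uniformly in `c`.
(2) The mean over `c ∈ [0, T]^n` of `|∫_0^T Z_{γ, γ}(t) dt / (T (log T)^(n+4)) - density T c / 12|`
tends to `0`.
(3) The integral of `Z_{γ, γ}` over `[0, T]` is asymptotic to
`A(c) * zetaFactor c * T (log T)^(n+4) / 12`, up to the factor `1 + O(ε)`, for all `c ∈ [0, T]^n`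
outside a set of measure at most `ε T^n`. -/
theorem result (n : ℕ) :
    (∃ C : ℝ, ∀ c : Fin n → ℝ, ∀ p : ℕ, p.Prime → |localFactor c p - 1| ≤ C / (p : ℝ) ^ 2) ∧
    ∀ ε : ℝ, 0 < ε → ∃ T₀ : ℝ, ∀ T : ℝ, T₀ ≤ T →
      IntegrableOn (fun c : Fin n → ℝ =>
          ‖(∫ t in (0:ℝ)..T, Z (shifts c) (shifts c) t) / (T * Real.log T ^ (n + 4) : ℝ) -
            (1 / 12 * density T c : ℝ)‖) {c | ∀ j, c j ∈ Set.Icc 0 T} ∧
      ∫ c in {c : Fin n → ℝ | ∀ j, c j ∈ Set.Icc 0 T},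
          ‖(∫ t in (0:ℝ)..T, Z (shifts c) (shifts c) t) / (T * Real.log T ^ (n + 4) : ℝ) -
            (1 / 12 * density T c : ℝ)‖ ≤ ε * T ^ n ∧
      volume {c : Fin n → ℝ | (∀ j, c j ∈ Set.Icc 0 T) ∧
        ¬ ‖(∫ t in (0:ℝ)..T, Z (shifts c) (shifts c) t) /
          (1 / 12 * arithmeticFactor c * zetaFactor c * (T * Real.log T ^ (n + 4)) : ℝ) - 1‖ ≤ ε} ≤
        ENNReal.ofReal (ε * T ^ n) := by
  obtain ⟨h1, h2⟩ := Pool.Agent.Y969.SM.res_gen Pool.Agent.Y969.SM.main Pool.Agent.Y969.SM.rel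
    Pool.Agent.Y969.SM.aa n
  have e1 : ∀ x y : ℝ, ‖((x : ℝ) : ℂ) / ((y : ℝ) : ℂ) - 1‖ = |x / y - 1| := by
    intro x y
    rw [← ofReal_div, ← ofReal_one, ← ofReal_sub, norm_real, Real.norm_eq_abs]
  have e2 : ∀ x y z : ℝ, ‖((x : ℝ) : ℂ) / ((y : ℝ) : ℂ) - ((z : ℝ) : ℂ)‖ = |x / y - z| := by
    intro x y z
    rw [← ofReal_div, ← ofReal_sub, norm_real, Real.norm_eq_abs]
  refine ⟨h1, fun ε hε => ?_⟩
  obtain ⟨T₀, h2⟩ := h2 ε hε
  refine ⟨T₀, fun T hT => ?_⟩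
  have := h2 T hT
  simp only [Z_eq, intervalIntegral.integral_ofReal, e1, e2]
  exact this

end

end Pool.Agent.Results.MP_fa2474_nt.DoubledShift
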