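import Pool.Agent.Y969.GP.Fin4

set_option autoImplicit false

/-!
# Shifted moments of zeta with square root remainder, for almost all shifts in pairs

The shifted moments of order `2k` of the Riemann zeta function with `α = β = (0, c_1, …, c_n)`,
`k = n + 1`, compared with the sum of the swaps of pairs `α_j ↔ β_j` of the recipe, written as a
contour integral (the terms have poles at `α_j = β_j`, their sum has not), for all `c` in the cube
`[0, T]^n` outside a set whose measure is smaller than that of the cube by a power of `T`, with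
remainder `O(T^(1/2 + ε))`.
-/

namespace Pool.Agent.Results.MP_fa2474_nt.GenericPairs

open Complex MeasureTheory

noncomputable section

variable {n k : ℕ}

/-- The divisor function `τ_l(m)`: the sum over `d_1 d_2 ⋯ d_k = m` of `∏ j, d_j ^ l_j`. -/
def tau (l : Fin k → ℂ) (m : ℕ) : ℂ :=
  ∑ d ∈ Nat.finMulAntidiag k m, ∏ j, (d j : ℂ) ^ (l j)

/-- The Euler factor of `F(1/2; a, b)` at the prime `p`. -/
def localFactor (a b : Fin k → ℂ) (p : ℕ) : ℂ :=
  (∏ j, ∏ l, (1 - (p : ℂ) ^ (-(1 + I * a j - I * b l)))) *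
    ∑' m : ℕ, tau (fun j => I * b j) (p ^ m) * tau (fun j => -(I * a j)) (p ^ m) / (p : ℂ) ^ m

/-- The arithmetic factor `F(1/2; a, b)`, an Euler product. -/
def arithF (a b : Fin k → ℂ) : ℂ := ∏' p : Nat.Primes, localFactor a b p

/-- `ζ_{(a, b)}(1/2)`, through `F(1/2; a, b)` and the product of `k ^ 2` zeta functions. -/
def zetaAB (a b : Fin k → ℂ) : ℂ :=
  arithF a b * ∏ j, ∏ l, riemannZeta (1 + I * a j - I * b l)

/-- `Z_{a, b}(t)`. -/
def Z (a b : Fin k → ℝ) (t : ℝ) : ℂ :=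
  ∏ j, riemannZeta (1 / 2 + I * (t + a j)) * riemannZeta (1 / 2 - I * (t + b j))

/-- The shifts `(0, c_1, …, c_n)`. -/
def shifts (c : Fin n → ℝ) : Fin (n + 1) → ℝ := Fin.cons 0 c

/-- The sum over the swaps of pairs of the recipe at `α = β = (0, c_1, …, c_n)`: `(2πi)^(-(n+1))`
times the integral over `|w_0| = ⋯ = |w_n| = 1/8` of
`ζ_{(c - iw, c + iw)}(1/2) ∏_j (2/w_j) ((t + c_j)/2π)^(w_j)`. -/
def mainTerm (c : Fin n → ℝ) (t : ℝ) : ℂ :=
  ((2 * Real.pi * I) ^ (n + 1))⁻¹ * torusIntegral (fun w : Fin (n + 1) → ℂ =>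
    zetaAB (fun j => shifts c j - I * w j) (fun j => shifts c j + I * w j) *
      ∏ j, (2 / w j * exp (w j * Real.log ((t + shifts c j) / (2 * Real.pi)))))
    (fun _ => 0) (fun _ => 1 / 8)

lemma mainTerm_eq (c : Fin n → ℝ) (t : ℝ) : mainTerm c t = Pool.Agent.Y969.GP.RR c t := by
  unfold mainTerm Pool.Agent.Y969.GP.RR
  congr 2
  funext w
  congr 1
  unfold zetaAB
  congr 1
  refine Finset.prod_congr rfl fun i _ => Finset.prod_congr rfl fun l _ => ?_
  congr 1
  show 1 + I * ((shifts c i : ℂ) - I * w i) - I * ((shifts c l : ℂ) + I * w l) =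
    1 + w i + w l + I * ((shifts c i : ℂ) - shifts c l)
  linear_combination (-w i - w l) * I_mul_I

lemma Z_eq (c : Fin n → ℝ) (t : ℝ) : Z (shifts c) (shifts c) t =
    ((∏ j, Pool.Agent.Y969.GP.ff (t + Pool.Agent.Y969.GP.cc c j) : ℝ) : ℂ) := by
  unfold Z
  rw [ofReal_prod]
  refine Finset.prod_congr rfl fun j _ => ?_
  unfold Pool.Agent.Y969.GP.ff
  have e1 : (1 / 2 - I * ((t : ℂ) + (shifts c j : ℂ))) =
      (starRingEnd ℂ) (1 / 2 + I * ((t : ℂ) + (shifts c j : ℂ))) := by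
    simp only [map_add, map_mul, conj_I, conj_ofReal, map_div₀, map_one, map_ofNat]
    ring
  rw [e1, riemannZeta_conj, mul_conj, normSq_eq_norm_sq]
  simp only [ofReal_add]
  rfl

/-- For every `n` and `ε > 0` there are `δ > 0` and `T₀` such that for all `T ≥ T₀` and
`0 ≤ S ≤ T`: for all `c ∈ [0, T]^n` outside a set of measure at most `T^(n - δ)`, with
`γ = (0, c_1, …, c_n)`, the integral of `Z_{γ, γ}(t)` over `[0, S]` differs from the integral of the
main term by at most `T^(1/2 + ε)`. -/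
theorem result (n : ℕ) (ε : ℝ) (hε : 0 < ε) : ∃ δ T₀ : ℝ, 0 < δ ∧ ∀ T S : ℝ, T₀ ≤ T → 0 ≤ S →
    S ≤ T → volume {c : Fin n → ℝ | (∀ j, 0 ≤ c j ∧ c j ≤ T) ∧
      T ^ (1 / 2 + ε) <
        ‖(∫ t in (0:ℝ)..S, Z (shifts c) (shifts c) t) - ∫ t in (0:ℝ)..S, mainTerm c t‖} ≤
    ENNReal.ofReal (T ^ (n - δ)) := by
  obtain ⟨δ, T₀, hδ, h⟩ := Pool.Agent.Y969.GP.main n ε hε
  refine ⟨δ, T₀, hδ, fun T S hT hS hST => ?_⟩
  have := h T S hT hS hST
  simp only [mainTerm_eq, Z_eq, intervalIntegral.integral_ofReal]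
  exact this

end

end Pool.Agent.Results.MP_fa2474_nt.GenericPairs
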