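import Pool.Agent.Y753.SHR.R20
import Pool.Agent.Y753.SHR.Star
import Pool.Agent.Y901.SHR.Diag

set_option autoImplicit false

/-!
MP_fa2474_nt. Shifted moments of every order near the critical line, off a small set of large values, for shifts
proportional to the distance from the line. Let `δ(T) → 0`, `δ(T) log T → ∞`, `c ≥ 0` and `S` a countable set of reals.
There are sets `E(T) ⊆ [0, T]` of measure `o(δ^(4+4c) T)`, at every point of which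
`|ζ(1/2 + δ + i(t + a δ))| > δ^(-2-c)` for some `a ∈ S`, such that for every integer `k ≥ 1` with `k ≤ 2` or
`k ≥ 2 + 2c` (every `k`, if `c ≤ 1/2`) and all shifts `a_j, b_l ∈ S`
`(2δ)^(k²) (1/T) ∫_{[0,T] \ E(T)} ∏_j ζ(1/2 + δ + i(t + a_j δ)) ζ(1/2 + δ - i(t + b_j δ)) dt`
converges to `a_k ∏_{j,l} (1 + i(a_j - b_l)/2)^(-1)`.
-/

open Filter Topology MeasureTheory

/-- the arithmetic factor `a_k = ∏_p (1 - 1/p)^(k²) Σ_m d_k(p^m)² p^(-m)` -/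
noncomputable def Pool.Agent.Results.MP_fa2474_nt.MicroscopicShifts.ak (k : ℕ) : ℝ :=
  ∏' p : Nat.Primes, ((1 - 1 / (p : ℝ)) ^ (k ^ 2) *
    ∑' m : ℕ, ((ArithmeticFunction.zeta ^ k) ((p : ℕ) ^ m) : ℝ) ^ 2 / (p : ℝ) ^ m)

open Pool.Agent.Results.MP_fa2474_nt.MicroscopicShifts in
theorem Pool.Agent.Results.MP_fa2474_nt.MicroscopicShifts.result
    (δ : ℝ → ℝ) (hδ : Tendsto δ atTop (𝓝 0)) (hδL : Tendsto (fun T : ℝ => δ T * Real.log T) atTop atTop)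
    (c : ℝ) (hc : 0 ≤ c) (S : Set ℝ) (hS : S.Countable) :
    ∃ E : ℝ → Set ℝ, (∀ T, MeasurableSet (E T) ∧ ∀ t ∈ E T, 0 ≤ t ∧ t ≤ T ∧
        ∃ a ∈ S, (δ T) ^ (-(2 + c)) < ‖riemannZeta (((1 / 2 + δ T : ℝ) : ℂ) + Complex.I * ((t + a * δ T : ℝ) : ℂ))‖) ∧
      Tendsto (fun T => (volume (E T)).toReal / (T * (δ T) ^ (4 + 4 * c))) atTop (𝓝 0) ∧
      ∀ k : ℕ, 0 < k → (k ≤ 2 ∨ 2 + 2 * c ≤ k) → 0 < ak k ∧ ∀ a b : Fin k → ℝ, (∀ j, a j ∈ S) → (∀ j, b j ∈ S) →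
        Tendsto (fun T : ℝ => (((2 * δ T) ^ (k ^ 2) / T : ℝ) : ℂ) *
          ∫ t in Set.Icc 0 T \ E T, ∏ j, (riemannZeta (((1 / 2 + δ T : ℝ) : ℂ) + Complex.I * ((t + a j * δ T : ℝ) : ℂ)) *
            riemannZeta (((1 / 2 + δ T : ℝ) : ℂ) - Complex.I * ((t + b j * δ T : ℝ) : ℂ)))) atTop
          (𝓝 ((ak k : ℂ) * ∏ j, ∏ l, (1 + Complex.I * ((a j - b l : ℝ) : ℂ) / 2)⁻¹)) := by
  have e3 : ∀ k : ℕ, ak k = Pool.Agent.H306R2.aF k := by
    intro k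
    unfold ak Pool.Agent.H306R2.aF
    refine tprod_congr fun p => ?_
    have h1 : (1 - 1 / (p : ℝ)) ^ (k ^ 2) = (1 - 1 / (p : ℝ)) ^ ((k:ℝ) ^ 2) := by
      rw [← Nat.cast_pow, Real.rpow_natCast]
    have h2 : ∀ m : ℕ, ((ArithmeticFunction.zeta ^ k) ((p : ℕ) ^ m) : ℝ) = Pool.Agent.H306R2.lc k m := by
      intro m
      rw [← Pool.Agent.Y753.NL.dv_nat, Pool.Agent.H306R2.dv_prime_pow _ p.2]
    simp_rw [h1, h2, one_div, inv_pow, div_eq_mul_inv]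
  obtain ⟨E, w, hE, hvol, hw, hm⟩ := Pool.Agent.Y753.SHR.mixed_small Pool.Agent.Y901.SHR.done Pool.Agent.Y753.SHR.star hδ hδL hc hS
    (Set.countable_singleton (1:ℝ)) (by
      intro r hr
      rw [Set.mem_singleton_iff.mp hr]
      exact one_pos)
  refine ⟨E, fun T => ⟨(hE T).1, fun t ht => ⟨((hE T).2.1 ht).1, ((hE T).2.1 ht).2, ?_⟩⟩, hvol, fun k hk hcase =>
    ⟨by rw [e3]; exact Pool.Agent.H306R2.aF_pos (by exact_mod_cast hk), fun a b ha hb => ?_⟩⟩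
  · obtain ⟨a, ha, h1⟩ := (hE T).2.2.2 t ht
    refine ⟨a, ha, ?_⟩
    unfold Pool.Agent.Y753.SHR.za at h1
    have e4 : (1 / 2 + δ T + ((t + a * δ T : ℝ) : ℂ) * Complex.I : ℂ) =
        ((1 / 2 + δ T : ℝ) : ℂ) + Complex.I * ((t + a * δ T : ℝ) : ℂ) := by push_cast; ring
    rwa [e4] at h1
  · rw [e3]
    obtain ⟨h1, -⟩ := hm k k (fun _ => 1) a (fun _ => 1) b k hk hk (by simp) (by simp) (fun _ => rfl) ha (fun _ => rfl) hb
    have h2 := h1 (by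
      rcases hcase with h | h
      · left; exact_mod_cast h
      · right; linarith)
    have e5 : ∀ x : ℂ, x ^ (-((1 * 1 : ℝ) : ℂ)) = x⁻¹ := fun x => by
      have : (-((1 * 1 : ℝ) : ℂ)) = -1 := by push_cast; ring
      rw [this, Complex.cpow_neg_one]
    simp_rw [e5] at h2
    refine h2.congr' ?_
    filter_upwards [hw] with T hT
    have e8 : (2 * δ T) ^ ((k:ℝ) ^ 2) = (2 * δ T) ^ (k ^ 2) := by
      rw [← Nat.cast_pow, Real.rpow_natCast]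
    rw [e8]
    congr 1
    refine integral_congr_ae ?_
    have ha' : ∀ᵐ t : ℝ, ∀ j, riemannZeta (1 / 2 + δ T + ((t + a j * δ T : ℝ) : ℂ) * Complex.I) ≠ 0 :=
      ae_all_iff.mpr fun j => Pool.Agent.Y753.SHR.zeros_ae (δ T) (a j * δ T)
    have hb' : ∀ᵐ t : ℝ, ∀ j, riemannZeta (1 / 2 + δ T + ((t + b j * δ T : ℝ) : ℂ) * Complex.I) ≠ 0 :=
      ae_all_iff.mpr fun j => Pool.Agent.Y753.SHR.zeros_ae (δ T) (b j * δ T)
    filter_upwards [ae_restrict_of_ae ha', ae_restrict_of_ae hb'] with t t1 t2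
    unfold Pool.Agent.Y753.SHR.zr
    rw [map_prod, ← Finset.prod_mul_distrib]
    refine Finset.prod_congr rfl fun j _ => ?_
    rw [Complex.ofReal_one, one_mul, one_mul, hT _ (t1 j), hT _ (t2 j), ← riemannZeta_conj]
    congr 2
    · push_cast; ring
    · simp only [map_add, map_mul, Complex.conj_ofReal, Complex.conj_I, map_div₀, map_one, map_ofNat]
      push_cast; ring
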