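import Pool.Agent.Y746.CS.Fin1

/-!
# Truncated shifted moments of the Riemann zeta function near the critical line

For shifts `a = (a_1, …, a_k)` and `b = (b_1, …, b_l)` let

`Z(t) = ∏_j ζ(1/2 + δ + i (t + a_j)) ∏_j ζ(1/2 + δ - i (t + b_j))`

be the product of Conrey, Farmer, Keating, Rubinstein and Snaith, taken at distance `δ` from the
critical line, and let `ζ_(a,b)(s) = ∑ τ_{-ia}(n) τ_{ib}(n) n^(-2s)` be the Dirichlet series of the
recipe, with `τ_{-ia}(n) = ∑_{d_1 ⋯ d_k = n} ∏ d_j^(-i a_j)`.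

Unconditionally, for all `k, l` and every `B`, uniformly in `C loglog T / log T ≤ δ ≤ 1/16`, in ALL
real shifts of absolute value at most `T` and in the truncation `(log T)^A ≤ V ≤ T^(cδ)`, the mean
value of `Z(t)` over the `t` in `(0, T]` at which all the factors are at most `V` in absolute value is
`ζ_(a,b)(1/2 + δ) + O((log T)^(-B))`, the first term of the recipe; the omitted `t` have measure at
most `T (log T)^(-B)`.  (The other terms of the recipe are of size about `T^(-2δ)` and are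
`O((log T)^(-B))` in this range.)
-/

set_option autoImplicit false

namespace Pool.Agent.Results.MP_fa2474_nt.TruncatedShifts

open MeasureTheory Finset

noncomputable section

/-- The point `1/2 + δ + i t`. -/
def pt (δ t : ℝ) : ℂ := ((1 / 2 + δ : ℝ) : ℂ) + (t : ℂ) * Complex.I

/-- The function `n ↦ n^(-i c)` on the positive integers. -/
def power (c : ℝ) : ArithmeticFunction ℂ :=
  ⟨fun n => if n = 0 then 0 else (n : ℂ) ^ (-((c : ℂ) * Complex.I)), by simp⟩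

/-- `τ_{-ia}(n) = ∑_{d_1 ⋯ d_k = n} ∏_j d_j^(-i a_j)`, the Dirichlet convolution of the functions
`n ↦ n^(-i a_j)`. -/
def tau {k : ℕ} (a : Fin k → ℝ) : ArithmeticFunction ℂ := ∏ j, power (a j)

/-- The Dirichlet series `∑ τ_{-ia}(n) τ_{ib}(n) n^(-1-2δ)`, the value `ζ_(a,b)(1/2 + δ)`. -/
def diag (δ : ℝ) {k l : ℕ} (a : Fin k → ℝ) (b : Fin l → ℝ) : ℂ :=
  ∑' n : ℕ, tau a n * (starRingEnd ℂ) (tau b n) * (((n : ℝ) ^ (-1 - 2 * δ) : ℝ) : ℂ)

/-- The `t` in `(0, T]` at which all the factors are at most `V` in absolute value. -/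
def good (δ V T : ℝ) {k l : ℕ} (a : Fin k → ℝ) (b : Fin l → ℝ) : Set ℝ :=
  {t | t ∈ Set.Ioc 0 T ∧ (∀ j, ‖riemannZeta (pt δ (t + a j))‖ ≤ V) ∧
    ∀ j, ‖riemannZeta (pt δ (-(t + b j)))‖ ≤ V}

/-- Truncated shifted moments of every order near the critical line. -/
theorem result : ∀ k l : ℕ, ∃ c : ℝ, 0 < c ∧ ∀ B : ℝ, ∃ A C T₀ : ℝ, 0 < C ∧ ∀ T : ℝ, T₀ ≤ T →
    ∀ δ : ℝ, C * Real.log (Real.log T) / Real.log T ≤ δ → δ ≤ 1 / 16 →
    ∀ V : ℝ, Real.log T ^ A ≤ V → V ≤ T ^ (c * δ) →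
    ∀ (a : Fin k → ℝ) (b : Fin l → ℝ), (∀ j, |a j| ≤ T) → (∀ j, |b j| ≤ T) →
    ‖(1 / (T : ℂ)) * (∫ t in good δ V T a b, (∏ j, riemannZeta (pt δ (t + a j))) *
        ∏ j, riemannZeta (pt δ (-(t + b j)))) - diag δ a b‖ ≤ Real.log T ^ (-B) ∧
    (volume (Set.Ioc 0 T \ good δ V T a b)).toReal ≤ T * Real.log T ^ (-B) := by
  intro k l
  obtain ⟨c, hc, h⟩ := Pool.Agent.Y746.CS.cx k l
  refine ⟨c, hc, fun B => ?_⟩
  obtain ⟨B', hB'⟩ := exists_nat_ge B
  obtain ⟨A, C, T₀, hC, h2⟩ := h B'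
  refine ⟨(A : ℝ), C, max T₀ 4, hC, fun T hT δ hδ hδ1 V hV1 hV2 a b ha hb => ?_⟩
  have hT4 : 4 ≤ T := (le_max_right _ _).trans hT
  have hTp : 0 < T := by linarith
  have hL1 : 1 ≤ Real.log T := by
    rw [Real.le_log_iff_exp_le hTp]
    linarith [Real.exp_one_lt_d9]
  have hL0 : 0 < Real.log T := by linarith
  rw [Real.rpow_natCast] at hV1
  obtain ⟨g1, g2⟩ := h2 T ((le_max_left _ _).trans hT) δ hδ hδ1 V hV1 hV2 a b ha hb
  have hneg : ∀ x : ℝ, riemannZeta (pt δ (-x)) = (starRingEnd ℂ) (riemannZeta (pt δ x)) := by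
    intro x
    rw [← riemannZeta_conj]
    congr 1
    unfold pt
    simp only [map_add, map_mul, Complex.conj_ofReal, Complex.conj_I]
    push_cast; ring
  have hpow : 1 / Real.log T ^ B' ≤ Real.log T ^ (-B) := by
    rw [Real.rpow_neg hL0.le, one_div]
    refine inv_anti₀ (Real.rpow_pos_of_pos hL0 _) ?_
    rw [← Real.rpow_natCast]
    exact Real.rpow_le_rpow_of_exponent_le hL1 hB'
  have hset : good δ V T a b = {t | t ∈ Set.Ioc 0 T ∧
      (∀ j, ‖riemannZeta (Pool.Agent.Y746.OA.sp δ (t + a j))‖ ≤ V) ∧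
        ∀ j, ‖riemannZeta (Pool.Agent.Y746.OA.sp δ (t + b j))‖ ≤ V} := by
    unfold good
    simp_rw [hneg, RCLike.norm_conj]
    rfl
  have htw : ∀ c : ℝ, Pool.Agent.Y746.CS.tw1 1 c = power c := by
    intro c
    ext n
    show (Pool.Agent.H306R2.dv 1 n : ℂ) * (n : ℂ) ^ (-((c : ℂ) * Complex.I)) =
      if n = 0 then 0 else (n : ℂ) ^ (-((c : ℂ) * Complex.I))
    split_ifs with h0
    · subst h0; simp [Pool.Agent.H306R2.dv]
    · have := Pool.Agent.Y746.OA.dA_one_apply (Nat.one_le_iff_ne_zero.mpr h0)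
      rw [Pool.Agent.H306R2.dA_apply] at this
      rw [this]; simp
  have htau : ∀ {m : ℕ} (x : Fin m → ℝ), Pool.Agent.Y746.CS.Tk x = tau x := by
    intro m x
    unfold Pool.Agent.Y746.CS.Tk tau
    exact prod_congr rfl fun j _ => htw (x j)
  have hdiag : ∑' n : ℕ, Pool.Agent.Y746.CS.Tk a n * (starRingEnd ℂ) (Pool.Agent.Y746.CS.Tk b n) *
      Pool.Agent.Y746.CS.wt δ n = diag δ a b := by
    unfold diag Pool.Agent.Y746.CS.wt
    rw [htau, htau]
    refine tsum_congr fun n => ?_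
    congr 3
    ring
  have hint : ∫ t in good δ V T a b, (∏ j, riemannZeta (pt δ (t + a j))) *
        ∏ j, riemannZeta (pt δ (-(t + b j))) =
      ∫ t in {t | t ∈ Set.Ioc 0 T ∧ (∀ j, ‖riemannZeta (Pool.Agent.Y746.OA.sp δ (t + a j))‖ ≤ V) ∧
        ∀ j, ‖riemannZeta (Pool.Agent.Y746.OA.sp δ (t + b j))‖ ≤ V},
        (∏ j, riemannZeta (Pool.Agent.Y746.OA.sp δ (t + a j))) *
          (starRingEnd ℂ) (∏ j, riemannZeta (Pool.Agent.Y746.OA.sp δ (t + b j))) := by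
    rw [hset]
    congr 1
    funext t
    rw [map_prod]
    congr 1
    exact prod_congr rfl fun j _ => hneg _
  constructor
  · rw [hint, ← hdiag]
    refine le_trans ?_ hpow
    have hTc : (T : ℂ) ≠ 0 := by exact_mod_cast hTp.ne'
    have e : ∀ I S : ℂ, (1 / (T : ℂ)) * I - S = (1 / (T : ℂ)) * (I - T * S) := by
      intro I S; field_simp
    rw [e, norm_mul, norm_div, norm_one, Complex.norm_real, Real.norm_of_nonneg hTp.le]
    calc 1 / T * _ ≤ 1 / T * (T / Real.log T ^ B') := mul_le_mul_of_nonneg_left g1 (by positivity)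
      _ = 1 / Real.log T ^ B' := by field_simp
  · have e : Set.Ioc 0 T \ good δ V T a b = {t | t ∈ Set.Ioc 0 T ∧
        ¬ ((∀ j, ‖riemannZeta (Pool.Agent.Y746.OA.sp δ (t + a j))‖ ≤ V) ∧
        ∀ j, ‖riemannZeta (Pool.Agent.Y746.OA.sp δ (t + b j))‖ ≤ V)} := by
      rw [hset]
      ext t
      constructor
      · rintro ⟨h1, h2⟩
        exact ⟨h1, fun h3 => h2 ⟨h1, h3⟩⟩
      · rintro ⟨h1, h2⟩
        exact ⟨h1, fun h3 => h2 h3.2⟩
    rw [e]
    refine g2.trans ?_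
    calc T / Real.log T ^ B' = T * (1 / Real.log T ^ B') := by ring
      _ ≤ _ := mul_le_mul_of_nonneg_left hpow hTp.le

end

end Pool.Agent.Results.MP_fa2474_nt.TruncatedShifts
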